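import Pool.Agent.Y462.PA.Stm

set_option autoImplicit false

namespace Pool.Agent.Y79.PA

open Pool.Agent.Y462.SS Pool.Agent.Y462.PA

variable {X : Type}

lemma per_mul {ξ : ℕ → X} {P : ℕ} (h : ∀ n, ξ (n + P) = ξ n) (j n : ℕ) : ξ (n + P * j) = ξ n := by
  induction j with
  | zero => rfl
  | succ j ih => rw [Nat.mul_succ, ← Nat.add_assoc, h, ih]

lemma al_add {ξ : ℕ → X} {P : ℕ} (hξ : ∀ n, ξ (n + P) = ξ n) {h : T X} (hP : al ξ h P = h) (n : ℕ) :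
    al ξ h (n + P) = al ξ h n := by
  induction n with
  | zero => rw [Nat.zero_add, hP]; rfl
  | succ n ih =>
    have e : n + 1 + P = (n + P) + 1 := by omega
    rw [e, al, ih, hξ, al]

lemma al_mulP {ξ : ℕ → X} {P : ℕ} (hξ : ∀ n, ξ (n + P) = ξ n) {h : T X} (hP : al ξ h P = h) (j : ℕ) :
    al ξ h (P * j) = h := by
  induction j with
  | zero => rfl
  | succ j ih => rw [Nat.mul_succ, al_add hξ hP, ih]

lemma M0_le {P P' : ℕ} (h : P ∣ P') : M0 X P ≤ M0 X P' := by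
  obtain ⟨j, rfl⟩ := h
  refine Subgroup.closure_mono ?_
  rintro g ⟨ξ, hξ, hP, hD⟩
  exact ⟨ξ, per_mul hξ j, al_mulP hξ hP j, hD⟩

lemma Bd_le {d : X} {P P' : ℕ} (h : P ∣ P') (H : Subgroup (T X)) : Bd d P H ≤ Bd d P' H := by
  obtain ⟨j, rfl⟩ := h
  rintro g ⟨h1, h2, h3⟩
  exact ⟨h1, al_mulP (fun _ => rfl) h2 j, h3⟩

theorem Mx_le {d : X} {P P' : ℕ} (hPP : P ∣ P') : ∀ s : ℕ, Mx d P s ≤ Mx d P' s
  | 0 => le_rfl
  | 1 => M0_le hPP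
  | s + 2 => Lv_mono_left (sup_le_sup (Mx_le hPP (s + 1))
      ((Bd_le hPP _).trans (Bd_mono (Mx_le hPP (s + 1))))) 1

theorem t_mxp : S_MXP := fun _ _ _ _ _ hPP s => Mx_le hPP s

end Pool.Agent.Y79.PA
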